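import Pool.Agent.L7h59.TW.Def
import Pool.Agent.H842R2.Artin

/-!
# `K₁` is compatible with matrices and commutes with directed unions
-/

set_option autoImplicit false

open Matrix

namespace Pool.Agent.L7h76.TW

open H970SH H842 Pool.Agent.Y69 Pool.Agent.L7h59.TW

noncomputable section

/-- `k1`, with the copy `H970SH.K1` of `K₁`. -/
def k1' : RFun where
  F _B _ := H970SH.K1 _B
  grp _B _ := inferInstance
  map f := K1map f

theorem k1_eq : k1 = k1' := rfl

section blow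

variable {A B C D X : Type} [Ring A] [Ring B] [Ring C] [Ring D] [Fintype X] [DecidableEq X]

theorem blow_exists (θ : B →+* Matrix X X C) :
    ∃ F : H970SH.K1 B →+ H970SH.K1 C, ∀ (ι : Type) [Fintype ι] [DecidableEq ι] (M : (Matrix ι ι B)ˣ),
      F (cl M) = cl (blow θ M) := by
  let g : FreeAbelianGroup (Σ n : ℕ, (Matrix (Fin n) (Fin n) B)ˣ) →+ H970SH.K1 C :=
    FreeAbelianGroup.lift fun x => cl (blow θ x.2)
  have hg : AddSubgroup.closure (H970SH.K1Rel B) ≤ g.ker := by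
    rw [AddSubgroup.closure_le]
    rintro x (⟨n, M, N, rfl⟩ | ⟨n, M, N, hN, rfl⟩)
    · show g _ = 0
      rw [map_sub, map_add]
      simp only [g, FreeAbelianGroup.lift_apply_of]
      rw [map_mul, cl_mul, sub_self]
    · show g _ = 0
      rw [map_sub]
      simp only [g, FreeAbelianGroup.lift_apply_of]
      rw [sub_eq_zero, ← cl_stab (κ := Fin 1 × X) (blow θ M)]
      apply cl_congr ((Equiv.prodCongr finSumFinEquiv.symm (Equiv.refl X)).trans
        (Equiv.sumProdDistrib (Fin n) (Fin 1) X))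
      rintro ⟨i, x⟩ ⟨j, y⟩
      obtain ⟨i, rfl⟩ := finSumFinEquiv.surjective i
      obtain ⟨j, rfl⟩ := finSumFinEquiv.surjective j
      rw [blow_apply, hN, diagU_val]
      rcases i with i | i <;> rcases j with j | j
      · simp [blow_apply]
      · simp
      · simp
      · simp [Matrix.one_apply, Subsingleton.elim i j]
  refine ⟨QuotientAddGroup.lift _ g hg, ?_⟩
  intro ι _ _ M
  have h1 : QuotientAddGroup.lift _ g hg (cl M) =
      cl (blow θ (reindexUnit (Fintype.equivFin ι) M)) := by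
    show g _ = _
    simp only [g, FreeAbelianGroup.lift_apply_of]
  rw [h1]
  symm
  apply cl_congr (Equiv.prodCongr (Fintype.equivFin ι) (Equiv.refl X))
  rintro ⟨i, x⟩ ⟨j, y⟩
  rw [blow_apply, blow_apply, reindexUnit_val]
  simp

/-- the map induced by `θ : B → M_X(C)` -/
def bl (θ : B →+* Matrix X X C) : H970SH.K1 B →+ H970SH.K1 C := (blow_exists θ).choose

theorem bl_cl (θ : B →+* Matrix X X C) {ι : Type} [Fintype ι] [DecidableEq ι] (M : (Matrix ι ι B)ˣ) :
    bl θ (cl M) = cl (blow θ M) := (blow_exists θ).choose_spec ι M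

theorem bl_map (f : A →+* B) (θ : B →+* Matrix X X C) (x : H970SH.K1 A) :
    bl θ (K1map f x) = bl (θ.comp f) x := by
  obtain ⟨n, M, rfl⟩ := K1_exists x
  rw [K1map_cl, bl_cl, bl_cl]
  rfl

theorem map_bl (θ : B →+* Matrix X X C) (g : C →+* D) (x : H970SH.K1 B) :
    K1map g (bl θ x) = bl (g.mapMatrix.comp θ) x := by
  obtain ⟨n, M, rfl⟩ := K1_exists x
  rw [bl_cl, bl_cl, K1map_cl]
  rfl

theorem bl_conj (θ θ' : B →+* Matrix X X C) (u v : Matrix X X C) (huv : u * v = 1) (hvu : v * u = 1)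
    (h : ∀ b, θ' b = u * θ b * v) (x : H970SH.K1 B) : bl θ' x = bl θ x := by
  obtain ⟨n, M, rfl⟩ := K1_exists x
  rw [bl_cl, bl_cl]
  let D₀ : (Matrix (Fin n) (Fin n) (Matrix X X C))ˣ :=
    { val := Matrix.diagonal fun _ => u
      inv := Matrix.diagonal fun _ => v
      val_inv := by
        rw [Matrix.diagonal_mul_diagonal, huv, Matrix.diagonal_one]
      inv_val := by
        rw [Matrix.diagonal_mul_diagonal, hvu, Matrix.diagonal_one] }
  have h1 : mapUnit θ' M = D₀ * mapUnit θ M * D₀⁻¹ := by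
    apply Units.ext
    rw [mapUnit_val]
    refine Matrix.ext fun i j => ?_
    rw [Matrix.map_apply, h]
    show _ = ((Matrix.diagonal (fun _ => u) * ((M : Matrix (Fin n) (Fin n) B).map θ) *
      Matrix.diagonal (fun _ => v) : Matrix (Fin n) (Fin n) (Matrix X X C))) i j
    rw [Matrix.mul_diagonal, Matrix.diagonal_mul, Matrix.map_apply]
  let c : (Matrix (Fin n) (Fin n) (Matrix X X C))ˣ →* (Matrix (Fin n × X) (Fin n × X) C)ˣ :=
    Units.map ((Matrix.compRingEquiv (Fin n) X C : Matrix (Fin n) (Fin n) (Matrix X X C) ≃+*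
      _).toRingHom).toMonoidHom
  have h2 : blow θ' M = c (mapUnit θ' M) := rfl
  have h3 : blow θ M = c (mapUnit θ M) := rfl
  rw [h2, h3, h1, map_mul, map_mul, map_inv, cl_conj]

theorem bl_unique [Unique X] (θ : B →+* Matrix X X C) (f : B →+* C) (h : ∀ b x y, θ b x y = f b)
    (x : H970SH.K1 B) : bl θ x = K1map f x := by
  obtain ⟨n, M, rfl⟩ := K1_exists x
  rw [bl_cl, K1map_cl]
  apply cl_congr (Equiv.prodUnique (Fin n) X)
  rintro ⟨i, x⟩ ⟨j, y⟩
  rw [blow_apply, h, mapUnit_val, Matrix.map_apply]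
  rfl

end blow

section sum

variable {R : Type} [Ring R] {Y : Type} [Fintype Y] [DecidableEq Y] {κ : Y → Type}
  [∀ y, Fintype (κ y)] [∀ y, DecidableEq (κ y)]

/-- block diagonal units -/
def bd : (∀ y, (Matrix (κ y) (κ y) R)ˣ) →* (Matrix (Σ y, κ y) (Σ y, κ y) R)ˣ :=
  (Units.map (Matrix.blockDiagonal'RingHom κ R).toMonoidHom).comp
    (MulEquiv.piUnits (M := fun y => Matrix (κ y) (κ y) R)).symm.toMonoidHom

theorem bd_val (Ms : ∀ y, (Matrix (κ y) (κ y) R)ˣ) :
    (bd Ms : Matrix (Σ y, κ y) (Σ y, κ y) R) =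
      Matrix.blockDiagonal' fun y => (Ms y : Matrix (κ y) (κ y) R) := rfl

theorem cl_bd_single (y : Y) (U : (Matrix (κ y) (κ y) R)ˣ) :
    cl (bd (Pi.mulSingle y U)) = cl U := by
  classical
  let e₁ : κ y ≃ {s : Σ y, κ y // s.1 = y} :=
    { toFun := fun a => ⟨⟨y, a⟩, rfl⟩
      invFun := fun s => cast (congrArg κ s.2) s.1.2
      left_inv := fun a => rfl
      right_inv := by
        rintro ⟨⟨y', a⟩, rfl⟩
        rfl }
  let e : κ y ⊕ {s : Σ y, κ y // ¬ s.1 = y} ≃ Σ y, κ y :=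
    (Equiv.sumCongr e₁ (Equiv.refl _)).trans (Equiv.sumCompl fun s : Σ y, κ y => s.1 = y)
  rw [← cl_stab (κ := {s : Σ y, κ y // ¬ s.1 = y}) U]
  symm
  apply cl_congr e
  rintro (a | ⟨⟨z, a⟩, ha⟩) (b | ⟨⟨w, b⟩, hb⟩)
  · show _ = (bd (Pi.mulSingle y U) : Matrix (Σ y, κ y) (Σ y, κ y) R) ⟨y, a⟩ ⟨y, b⟩
    rw [bd_val, diagU_val, Matrix.fromBlocks_apply₁₁, Matrix.blockDiagonal'_apply_eq,
      Pi.mulSingle_eq_same]
  · show _ = (bd (Pi.mulSingle y U) : Matrix (Σ y, κ y) (Σ y, κ y) R) ⟨y, a⟩ ⟨w, b⟩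
    rw [bd_val, diagU_val, Matrix.fromBlocks_apply₁₂, Matrix.blockDiagonal'_apply_ne _ _ _ (Ne.symm hb)]
    rfl
  · show _ = (bd (Pi.mulSingle y U) : Matrix (Σ y, κ y) (Σ y, κ y) R) ⟨z, a⟩ ⟨y, b⟩
    rw [bd_val, diagU_val, Matrix.fromBlocks_apply₂₁, Matrix.blockDiagonal'_apply_ne _ _ _ ha]
    rfl
  · show _ = (bd (Pi.mulSingle y U) : Matrix (Σ y, κ y) (Σ y, κ y) R) ⟨z, a⟩ ⟨w, b⟩
    rw [bd_val, diagU_val, Matrix.fromBlocks_apply₂₂]
    by_cases hzw : z = w
    · subst hzw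
      rw [Matrix.blockDiagonal'_apply_eq, Pi.mulSingle_eq_of_ne ha, Units.val_one, Units.val_one,
        Matrix.one_apply, Matrix.one_apply]
      by_cases hab : a = b
      · subst hab
        rw [if_pos rfl, if_pos rfl]
      · rw [if_neg hab, if_neg]
        intro h
        apply hab
        have := congrArg Subtype.val h
        simpa using this
    · rw [Matrix.blockDiagonal'_apply_ne _ _ _ hzw, Units.val_one, Matrix.one_apply, if_neg]
      intro h
      exact hzw (congrArg (fun s => s.1.1) h)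

theorem cl_bd (Ms : ∀ y, (Matrix (κ y) (κ y) R)ˣ) : cl (bd Ms) = ∑ y, cl (Ms y) := by
  classical
  let Φ : (∀ y, (Matrix (κ y) (κ y) R)ˣ) →* Multiplicative (H970SH.K1 R) :=
    { toFun := fun Ms => Multiplicative.ofAdd (cl (bd Ms))
      map_one' := by rw [map_one, cl_one]; rfl
      map_mul' := fun a b => by rw [map_mul, cl_mul]; rfl }
  let Ψ : (∀ y, (Matrix (κ y) (κ y) R)ˣ) →* Multiplicative (H970SH.K1 R) :=
    { toFun := fun Ms => Multiplicative.ofAdd (∑ y, cl (Ms y))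
      map_one' := by
        rw [Finset.sum_eq_zero]
        · rfl
        · intro y _
          rw [Pi.one_apply, cl_one]
      map_mul' := fun a b => by
        rw [← ofAdd_add, ← Finset.sum_add_distrib]
        congr 1
        refine Finset.sum_congr rfl fun y _ => ?_
        rw [Pi.mul_apply, cl_mul] }
  have h : Φ = Ψ := by
    apply MonoidHom.pi_ext
    intro y U
    show Multiplicative.ofAdd (cl (bd (Pi.mulSingle y U))) =
      Multiplicative.ofAdd (∑ y', cl ((Pi.mulSingle y U : ∀ y, (Matrix (κ y) (κ y) R)ˣ) y'))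
    rw [cl_bd_single, Finset.sum_eq_single y]
    · rw [Pi.mulSingle_eq_same]
    · intro y' _ hy'
      rw [Pi.mulSingle_eq_of_ne hy', cl_one]
    · intro hy
      exact absurd (Finset.mem_univ y) hy
  exact congrArg Multiplicative.toAdd (DFunLike.congr_fun h Ms)

end sum

theorem bl_sum {B C X Y : Type} [Ring B] [Ring C] [Fintype X] [DecidableEq X] [Fintype Y]
    [DecidableEq Y] (θ : B →+* Matrix X X C) (ρ : X → Y)
    (θs : ∀ y, B →+* Matrix {x // ρ x = y} {x // ρ x = y} C)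
    (h0 : ∀ b x x', ρ x ≠ ρ x' → θ b x x' = 0)
    (h1 : ∀ b y (x x' : {x // ρ x = y}), θs y b x x' = θ b x x') (x : H970SH.K1 B) :
    bl θ x = ∑ y, bl (θs y) x := by
  obtain ⟨n, M, rfl⟩ := K1_exists x
  simp only [bl_cl]
  rw [← cl_bd]
  let e : Fin n × X ≃ Σ y, Fin n × {x // ρ x = y} :=
    { toFun := fun a => ⟨ρ a.2, (a.1, ⟨a.2, rfl⟩)⟩
      invFun := fun s => (s.2.1, s.2.2.1)
      left_inv := fun a => rfl
      right_inv := by
        rintro ⟨y, i, ⟨x, rfl⟩⟩
        rfl }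
  apply cl_congr e
  rintro ⟨i, x⟩ ⟨j, x'⟩
  rw [blow_apply, bd_val]
  show _ = Matrix.blockDiagonal' (fun y => ((blow (θs y) M : (Matrix _ _ C)ˣ) :
    Matrix (Fin n × {x // ρ x = y}) (Fin n × {x // ρ x = y}) C)) ⟨ρ x, (i, ⟨x, rfl⟩)⟩
      ⟨ρ x', (j, ⟨x', rfl⟩)⟩
  by_cases hx : ρ x = ρ x'
  · have h2 : (⟨ρ x', (j, ⟨x', rfl⟩)⟩ : Σ y, Fin n × {x // ρ x = y}) =
        ⟨ρ x, (j, ⟨x', hx.symm⟩)⟩ := by
      generalize hy : ρ x = y at hx
      subst hx
      rfl
    rw [h2, Matrix.blockDiagonal'_apply_eq, blow_apply, h1]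
  · rw [Matrix.blockDiagonal'_apply_ne _ _ _ hx]
    exact h0 _ _ _ hx

theorem nonempty_blow : Nonempty (Blow k1') :=
  ⟨{ blow := fun θ => bl θ
     map_map := fun f g x => K1map_comp f g x
     blow_map := fun f θ x => bl_map f θ x
     map_blow := fun θ g x => map_bl θ g x
     blow_conj := fun θ θ' u v h1 h2 h x => bl_conj θ θ' u v h1 h2 h x
     blow_sum := fun θ ρ θs h0 h1 x => bl_sum θ ρ θs h0 h1 x
     blow_unique := fun θ f h x => bl_unique θ f h x }⟩

/-! ### Directed unions -/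

section cont

variable {B B' : Type} [Ring B] [Ring B']

/-- the entries of a matrix and of its inverse -/
def ents {n : ℕ} (M : (Matrix (Fin n) (Fin n) B)ˣ) : Set B :=
  (Set.range fun ij : Fin n × Fin n => (M : Matrix (Fin n) (Fin n) B) ij.1 ij.2) ∪
    Set.range fun ij : Fin n × Fin n => ((M⁻¹ : (Matrix (Fin n) (Fin n) B)ˣ) : Matrix (Fin n) (Fin n) B) ij.1 ij.2

theorem ents_finite {n : ℕ} (M : (Matrix (Fin n) (Fin n) B)ˣ) : (ents M).Finite :=
  (Set.finite_range _).union (Set.finite_range _)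

theorem map_injective (f : B' →+* B) (hf : Function.Injective f) {ι κ : Type} :
    Function.Injective (fun M : Matrix ι κ B' => M.map f) := Matrix.map_injective hf

theorem exists_lift (f : B' →+* B) (hf : Function.Injective f) {n : ℕ}
    (M : (Matrix (Fin n) (Fin n) B)ˣ) (h : ∀ b ∈ ents M, b ∈ Set.range f) :
    ∃ M' : (Matrix (Fin n) (Fin n) B')ˣ, mapUnit f M' = M := by
  have h1 : ∀ i j, ∃ b, f b = (M : Matrix (Fin n) (Fin n) B) i j := fun i j =>
    h _ (Or.inl ⟨(i, j), rfl⟩)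
  have h2 : ∀ i j, ∃ b, f b = ((M⁻¹ : (Matrix (Fin n) (Fin n) B)ˣ) : Matrix (Fin n) (Fin n) B) i j :=
    fun i j => h _ (Or.inr ⟨(i, j), rfl⟩)
  choose P hP using h1
  choose Q hQ using h2
  have hP' : (Matrix.of P).map f = (M : Matrix (Fin n) (Fin n) B) := by
    ext i j
    exact hP i j
  have hQ' : (Matrix.of Q).map f = ((M⁻¹ : (Matrix (Fin n) (Fin n) B)ˣ) : Matrix (Fin n) (Fin n) B) := by
    ext i j
    exact hQ i j
  refine ⟨⟨Matrix.of P, Matrix.of Q, ?_, ?_⟩, ?_⟩
  · apply map_injective f hf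
    show (Matrix.of P * Matrix.of Q).map f = (1 : Matrix (Fin n) (Fin n) B').map f
    rw [Matrix.map_mul, hP', hQ', Units.mul_inv, Matrix.map_one f (map_zero f) (map_one f)]
  · apply map_injective f hf
    show (Matrix.of Q * Matrix.of P).map f = (1 : Matrix (Fin n) (Fin n) B').map f
    rw [Matrix.map_mul, hP', hQ', Units.inv_mul, Matrix.map_one f (map_zero f) (map_one f)]
  · apply Units.ext
    exact hP'

/-- the index map -/
def sm (f : B' →+* B) (x : Σ n : ℕ, (Matrix (Fin n) (Fin n) B')ˣ) :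
    Σ n : ℕ, (Matrix (Fin n) (Fin n) B)ˣ := ⟨x.1, mapUnit f x.2⟩

/-- the map of the free abelian groups -/
def fm (f : B' →+* B) : FreeAbelianGroup (Σ n : ℕ, (Matrix (Fin n) (Fin n) B')ˣ) →+
    FreeAbelianGroup (Σ n : ℕ, (Matrix (Fin n) (Fin n) B)ˣ) := FreeAbelianGroup.map (sm f)

theorem fm_of (f : B' →+* B) {n : ℕ} (M : (Matrix (Fin n) (Fin n) B')ˣ) :
    fm f (FreeAbelianGroup.of ⟨n, M⟩) = FreeAbelianGroup.of ⟨n, mapUnit f M⟩ :=
  FreeAbelianGroup.map_of_apply _

theorem sm_injective (f : B' →+* B) (hf : Function.Injective f) : Function.Injective (sm f) := by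
  rintro ⟨n, M⟩ ⟨m, N⟩ h
  have h1 : n = m := congrArg Sigma.fst h
  subst h1
  have h2 : mapUnit f M = mapUnit f N := eq_of_heq (Sigma.mk.inj h).2
  congr 1
  apply Units.ext
  apply map_injective f hf
  exact congrArg Units.val h2

theorem fm_injective (f : B' →+* B) (hf : Function.Injective f) : Function.Injective (fm f) := by
  have : Nonempty (Σ n : ℕ, (Matrix (Fin n) (Fin n) B')ˣ) := ⟨⟨0, 1⟩⟩
  obtain ⟨g, hg⟩ := (sm_injective f hf).hasLeftInverse
  have h1 : (FreeAbelianGroup.map g).comp (fm f) = AddMonoidHom.id _ := by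
    unfold fm
    rw [← FreeAbelianGroup.map_comp, hg.comp_eq_id, FreeAbelianGroup.map_id]
  intro a b hab
  have h2 := congrArg (FreeAbelianGroup.map g) hab
  have h3 := DFunLike.congr_fun h1 a
  have h4 := DFunLike.congr_fun h1 b
  simp only [AddMonoidHom.comp_apply, AddMonoidHom.id_apply] at h3 h4
  rw [← h3, ← h4, h2]

theorem K1map_mk' (f : B' →+* B) (y : FreeAbelianGroup (Σ n : ℕ, (Matrix (Fin n) (Fin n) B')ˣ)) :
    K1map f (QuotientAddGroup.mk y : H970SH.K1 B') = (QuotientAddGroup.mk (fm f y) : H970SH.K1 B) := by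
  induction y using FreeAbelianGroup.induction_on with
  | zero => rw [map_zero]; exact map_zero (K1map f)
  | of y => rw [show y = ⟨y.1, y.2⟩ from rfl, fm_of]; exact K1map_mk f y.2
  | neg y h =>
    rw [map_neg, QuotientAddGroup.mk_neg, QuotientAddGroup.mk_neg, map_neg, h]
  | add y z hy hz =>
    rw [map_add, QuotientAddGroup.mk_add, QuotientAddGroup.mk_add, map_add, hy, hz]

theorem lift_closure (z : FreeAbelianGroup (Σ n : ℕ, (Matrix (Fin n) (Fin n) B)ˣ))
    (hz : z ∈ AddSubgroup.closure (H970SH.K1Rel B)) :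
    ∃ s : Set B, s.Finite ∧ ∀ (B' : Type) [Ring B'] (f : B' →+* B), Function.Injective f →
      (∀ b ∈ s, b ∈ Set.range f) → ∃ z' ∈ AddSubgroup.closure (H970SH.K1Rel B'), fm f z' = z := by
  induction hz using AddSubgroup.closure_induction with
  | mem x hx =>
    rcases hx with ⟨n, M, N, rfl⟩ | ⟨n, M, N, hN, rfl⟩
    · refine ⟨ents M ∪ ents N, (ents_finite M).union (ents_finite N), fun B' _ f hf hs => ?_⟩
      obtain ⟨M', hM'⟩ := exists_lift f hf M fun b hb => hs b (Or.inl hb)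
      obtain ⟨N', hN'⟩ := exists_lift f hf N fun b hb => hs b (Or.inr hb)
      refine ⟨FreeAbelianGroup.of ⟨n, M' * N'⟩ -
        (FreeAbelianGroup.of ⟨n, M'⟩ + FreeAbelianGroup.of ⟨n, N'⟩),
        AddSubgroup.subset_closure (Or.inl ⟨n, M', N', rfl⟩), ?_⟩
      rw [map_sub, map_add, fm_of, fm_of, fm_of]
      have h1 : mapUnit f (M' * N') = mapUnit f M' * mapUnit f N' := map_mul _ _ _
      rw [h1, hM', hN']
    · refine ⟨ents M ∪ ents N, (ents_finite M).union (ents_finite N), fun B' _ f hf hs => ?_⟩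
      obtain ⟨M', hM'⟩ := exists_lift f hf M fun b hb => hs b (Or.inl hb)
      obtain ⟨N', hN'⟩ := exists_lift f hf N fun b hb => hs b (Or.inr hb)
      refine ⟨FreeAbelianGroup.of ⟨n + 1, N'⟩ - FreeAbelianGroup.of ⟨n, M'⟩,
        AddSubgroup.subset_closure (Or.inr ⟨n, M', N', ?_, rfl⟩), ?_⟩
      · apply map_injective f hf
        show (N' : Matrix (Fin (n + 1)) (Fin (n + 1)) B').map f = _
        have h1 : (N' : Matrix (Fin (n + 1)) (Fin (n + 1)) B').map f =
          (N : Matrix (Fin (n + 1)) (Fin (n + 1)) B) := congrArg Units.val hN'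
        have h2 : (M' : Matrix (Fin n) (Fin n) B').map f = (M : Matrix (Fin n) (Fin n) B) :=
          congrArg Units.val hM'
        rw [h1, hN, ← h2]
        ext i j
        show (Matrix.fromBlocks ((M' : Matrix (Fin n) (Fin n) B').map f) 0 0 1)
          (finSumFinEquiv.symm i) (finSumFinEquiv.symm j) =
          f ((Matrix.fromBlocks (M' : Matrix (Fin n) (Fin n) B') 0 0 1)
          (finSumFinEquiv.symm i) (finSumFinEquiv.symm j))
        rcases finSumFinEquiv.symm i with a | a <;> rcases finSumFinEquiv.symm j with b | b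
        · rfl
        · exact (map_zero f).symm
        · exact (map_zero f).symm
        · rw [Matrix.fromBlocks_apply₂₂, Matrix.fromBlocks_apply₂₂, Subsingleton.elim a b,
            Matrix.one_apply_eq, Matrix.one_apply_eq, map_one]
      · rw [map_sub, fm_of, fm_of, hM', hN']
  | zero => exact ⟨∅, Set.finite_empty, fun B' _ f _ _ => ⟨0, zero_mem _, map_zero _⟩⟩
  | add x y _ _ hx hy =>
    obtain ⟨s, hs, h1⟩ := hx
    obtain ⟨t, ht, h2⟩ := hy
    refine ⟨s ∪ t, hs.union ht, fun B' _ f hf h => ?_⟩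
    obtain ⟨a, ha, ha'⟩ := h1 B' f hf fun b hb => h b (Or.inl hb)
    obtain ⟨c, hc, hc'⟩ := h2 B' f hf fun b hb => h b (Or.inr hb)
    exact ⟨a + c, add_mem ha hc, by rw [map_add, ha', hc']⟩
  | neg x _ hx =>
    obtain ⟨s, hs, h1⟩ := hx
    refine ⟨s, hs, fun B' _ f hf h => ?_⟩
    obtain ⟨a, ha, ha'⟩ := h1 B' f hf h
    exact ⟨-a, neg_mem ha, by rw [map_neg, ha']⟩

end cont

theorem cont : Cont k1' := by
  classical
  constructor
  · intro B _ x
    obtain ⟨n, M, hM⟩ := K1_exists (x : H970SH.K1 B)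
    refine ⟨(ents_finite M).toFinset, fun B' _ f hf h => ?_⟩
    obtain ⟨M', hM'⟩ := exists_lift f hf M fun b hb => h b ((ents_finite M).mem_toFinset.2 hb)
    refine ⟨(cl M' : H970SH.K1 B'), ?_⟩
    show K1map f (cl M') = x
    rw [K1map_cl, hM', hM]
  · intro B₀ B _ _ f₀ x hx
    obtain ⟨y, hy⟩ := QuotientAddGroup.mk'_surjective (AddSubgroup.closure (H970SH.K1Rel B₀))
      (x : H970SH.K1 B₀)
    have hy' : (QuotientAddGroup.mk y : H970SH.K1 B₀) = x := hy
    have hx' : K1map f₀ (QuotientAddGroup.mk y : H970SH.K1 B₀) = 0 := by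
      rw [hy']
      exact hx
    rw [K1map_mk'] at hx'
    obtain ⟨s, hs, h⟩ := lift_closure _ ((QuotientAddGroup.eq_zero_iff _).1 hx')
    refine ⟨hs.toFinset, fun B' _ g f hf hfg h1 => ?_⟩
    obtain ⟨z', hz', hz⟩ := h B' f hf fun b hb => h1 b (hs.mem_toFinset.2 hb)
    have h2 : fm f₀ y = fm f (fm g y) := by
      have h3 : sm f₀ = sm f ∘ sm g := by
        funext a
        subst hfg
        rfl
      unfold fm
      rw [h3, FreeAbelianGroup.map_comp]
      rfl
    rw [h2] at hz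
    have h4 := fm_injective f hf hz
    show K1map g x = 0
    rw [← hy', K1map_mk', ← h4]
    exact (QuotientAddGroup.eq_zero_iff _).2 hz'

theorem s_K1F : S_K1F := ⟨nonempty_blow, cont⟩

end

end Pool.Agent.L7h76.TW
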