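import Pool.Agent.L7h59.TW.Def
import Pool.Agent.Results.MP_6374fb_al.ColimFieldInjective
import Pool.Agent.Results.MP_490288_al.ColimPositiveCharacteristic

/-!
# Trivial actions: the case of group rings
-/

set_option autoImplicit false

namespace Pool.Agent.L7h76.TW

open Pool.Agent.L7h59.TW
open Pool.Agent.Y69.FJ (FinSub)

noncomputable section

section eqv

variable {k : Type} [Field k] {H : Type} [Group H] [MulSemiringAction H k]

theorem skew_ext {A : Type} [Ring A] {f g : SkewMonoidAlgebra k H →+* A}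
    (h : ∀ (a : H) (b : k), f (SkewMonoidAlgebra.single a b) = g (SkewMonoidAlgebra.single a b)) :
    f = g := by
  have h1 : f.toAddMonoidHom = g.toAddMonoidHom := SkewMonoidAlgebra.addHom_ext h
  exact RingHom.ext fun x => DFunLike.congr_fun h1 x

omit [MulSemiringAction H k] in
theorem mon_ext {A : Type} [Ring A] {f g : MonoidAlgebra k H →+* A}
    (h : ∀ (a : H) (b : k), f (MonoidAlgebra.single a b) = g (MonoidAlgebra.single a b)) :
    f = g := by
  have h1 : f.toAddMonoidHom = g.toAddMonoidHom := MonoidAlgebra.addMonoidHom_ext h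
  exact RingHom.ext fun x => DFunLike.congr_fun h1 x

/-- `k ⋊ H → k[H]` -/
def E (hH : ∀ (h : H) (a : k), h • a = a) : SkewMonoidAlgebra k H →+* MonoidAlgebra k H :=
  SkewMonoidAlgebra.liftNCRingHom MonoidAlgebra.singleOneRingHom (MonoidAlgebra.of k H) (by
    intro x y
    rw [hH]
    show MonoidAlgebra.single 1 x * MonoidAlgebra.single y 1 =
      MonoidAlgebra.single y 1 * MonoidAlgebra.single 1 x
    rw [MonoidAlgebra.single_mul_single, MonoidAlgebra.single_mul_single, one_mul, mul_one, mul_one,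
      one_mul])

theorem E_single (hH : ∀ (h : H) (a : k), h • a = a) (a : H) (b : k) :
    E hH (SkewMonoidAlgebra.single a b) = MonoidAlgebra.single a b := by
  show SkewMonoidAlgebra.liftNC _ _ _ = _
  rw [SkewMonoidAlgebra.liftNC_single]
  show MonoidAlgebra.single 1 b * MonoidAlgebra.single a 1 = _
  rw [MonoidAlgebra.single_mul_single, one_mul, mul_one]

/-- `k[H] → k ⋊ H` -/
def E' (hH : ∀ (h : H) (a : k), h • a = a) : MonoidAlgebra k H →+* SkewMonoidAlgebra k H :=
  MonoidAlgebra.liftNCRingHom SkewMonoidAlgebra.singleOneRingHom (SkewMonoidAlgebra.of k H) (by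
    intro x y
    show SkewMonoidAlgebra.single 1 x * SkewMonoidAlgebra.single y 1 =
      SkewMonoidAlgebra.single y 1 * SkewMonoidAlgebra.single 1 x
    rw [SkewMonoidAlgebra.single_mul_single, SkewMonoidAlgebra.single_mul_single, hH, hH, one_mul,
      mul_one, mul_one, one_mul])

theorem E'_single (hH : ∀ (h : H) (a : k), h • a = a) (a : H) (b : k) :
    E' hH (MonoidAlgebra.single a b) = SkewMonoidAlgebra.single a b := by
  show MonoidAlgebra.liftNC _ _ _ = _
  rw [MonoidAlgebra.liftNC_single]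
  show SkewMonoidAlgebra.single 1 b * SkewMonoidAlgebra.single a 1 = _
  rw [SkewMonoidAlgebra.single_mul_single, hH, one_mul, mul_one]

theorem E'_comp (hH : ∀ (h : H) (a : k), h • a = a) : (E' hH).comp (E hH) = RingHom.id _ :=
  skew_ext fun a b => by
    rw [RingHom.comp_apply, E_single, E'_single, RingHom.id_apply]

end eqv

theorem k1_map_map {A B C : Type} [Ring A] [Ring B] [Ring C] (f : A →+* B) (g : B →+* C)
    (x : Pool.Agent.Y69.FJ.K1 A) :
    Pool.Agent.Y69.FJ.K1.map g (Pool.Agent.Y69.FJ.K1.map f x) =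
      Pool.Agent.Y69.FJ.K1.map (g.comp f) x := Pool.Agent.Y69.K1map_comp f g x

theorem k1_map_id {A : Type} [Ring A] (x : Pool.Agent.Y69.FJ.K1 A) :
    Pool.Agent.Y69.FJ.K1.map (RingHom.id A) x = x := Pool.Agent.Y69.K1map_id x

section main

variable {k G : Type} [Field k] [Group G] [MulSemiringAction G k]
  (hG : ∀ (g : G) (a : k), g • a = a)

include hG in
theorem hSub (H : Subgroup G) (h : H) (a : k) : h • a = a := hG h a

/-- `[H, x] ↦ [H, E(x)]` -/
def al : FreeAbelianGroup (Sym k1 k G) →+ FreeAbelianGroup (Pool.Agent.Y69.FJK.Sym k G) :=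
  FreeAbelianGroup.lift fun s => Pool.Agent.Y69.FJK.sym s.1
    (Pool.Agent.Y69.FJ.K1.map (E (hSub hG s.1.1)) s.2)

/-- `[H, x] ↦ [H, E⁻¹(x)]` -/
def be : FreeAbelianGroup (Pool.Agent.Y69.FJK.Sym k G) →+ FreeAbelianGroup (Sym k1 k G) :=
  FreeAbelianGroup.lift fun s => sym k1 s.1
    (Pool.Agent.Y69.FJ.K1.map (E' (hSub hG s.1.1)) s.2)

theorem al_sym (H : FinSub G) (x : k1.F (SkewMonoidAlgebra k H.1)) :
    al hG (sym k1 H x) = Pool.Agent.Y69.FJK.sym H
      (Pool.Agent.Y69.FJ.K1.map (E (hSub hG H.1)) x) := FreeAbelianGroup.lift_apply_of _ _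

theorem be_sym (H : Pool.Agent.Y69.FinSub G) (x : Pool.Agent.Y69.FJK.GK1 k H.1) :
    be hG (Pool.Agent.Y69.FJK.sym H x) = sym k1 (show FinSub G from H)
      (Pool.Agent.Y69.FJ.K1.map (E' (hSub hG H.1)) x) := FreeAbelianGroup.lift_apply_of _ _

theorem be_al (z : FreeAbelianGroup (Sym k1 k G)) : be hG (al hG z) = z := by
  have h : (be hG).comp (al hG) = AddMonoidHom.id _ := by
    apply FreeAbelianGroup.lift_ext
    rintro ⟨H, x⟩
    show be hG (al hG (sym k1 H x)) = sym k1 H x
    refine (congrArg (be hG) (al_sym hG H x)).trans ((be_sym hG H _).trans ?_)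
    have h1 := (k1_map_map (E (hSub hG H.1)) (E' (hSub hG H.1)) x).trans
      ((congrArg (fun f => Pool.Agent.Y69.FJ.K1.map f x) (E'_comp (hSub hG H.1))).trans
        (k1_map_id x))
    exact congrArg (sym k1 H) h1
  exact DFunLike.congr_fun h z

theorem asm_al (z : FreeAbelianGroup (Sym k1 k G)) :
    Pool.Agent.Y69.FJK.assemblyPre k G (al hG z) =
      (Pool.Agent.Y69.FJ.K1.map (E hG) (asmPre k1 k G z) : Pool.Agent.Y69.FJK.GK1 k G) := by
  have h : (Pool.Agent.Y69.FJK.assemblyPre k G).comp (al hG) =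
      (Pool.Agent.Y69.FJ.K1.map (E hG) : k1.F (SkewMonoidAlgebra k G) →+
        Pool.Agent.Y69.FJK.GK1 k G).comp (asmPre k1 k G) := by
    apply FreeAbelianGroup.lift_ext
    rintro ⟨H, x⟩
    show Pool.Agent.Y69.FJK.assemblyPre k G (al hG (sym k1 H x)) =
      Pool.Agent.Y69.FJ.K1.map (E hG) (asmPre k1 k G (sym k1 H x))
    refine (congrArg (Pool.Agent.Y69.FJK.assemblyPre k G) (al_sym hG H x)).trans
      ((Pool.Agent.Y69.FJK.assemblyPre_sym H _).trans ?_)
    have h1 : asmPre k1 k G (sym k1 H x) = Pool.Agent.Y69.FJ.K1.map (incHom k H.1) x :=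
      FreeAbelianGroup.lift_apply_of _ _
    rw [h1]
    have h2 := k1_map_map (E (hSub hG H.1)) (MonoidAlgebra.mapDomainRingHom k H.1.subtype) x
    have h3 := k1_map_map (incHom k H.1) (E hG) x
    refine h2.trans (Eq.trans ?_ h3.symm)
    congr 1
    congr 1
    apply skew_ext
    intro a b
    rw [RingHom.comp_apply, RingHom.comp_apply, E_single, MonoidAlgebra.mapDomainRingHom_apply,
      MonoidAlgebra.mapDomain_single]
    have h4 : incHom k H.1 (SkewMonoidAlgebra.single a b) = SkewMonoidAlgebra.single (a : G) b :=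
      SkewMonoidAlgebra.mapDomain_single
    rw [h4, E_single]
    rfl
  exact DFunLike.congr_fun h z

theorem be_rel : AddSubgroup.closure (Pool.Agent.Y69.FJK.ColimRel k G) ≤
    (AddSubgroup.closure (Rel k1 k G)).comap (be hG) := by
  rw [AddSubgroup.closure_le]
  rintro z (⟨H, x, y, rfl⟩ | ⟨H, L, g, φ, x, hφ, rfl⟩)
  · refine AddSubgroup.subset_closure (Or.inl ⟨H,
      Pool.Agent.Y69.FJ.K1.map (E' (hSub hG H.1)) x, Pool.Agent.Y69.FJ.K1.map (E' (hSub hG H.1)) y, ?_⟩)
    rw [map_sub, map_add]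
    have e1 := (be_sym hG H (x + y)).trans (congrArg (sym k1 (show FinSub G from H))
      (map_add (Pool.Agent.Y69.FJ.K1.map (E' (hSub hG H.1))) x y))
    exact congrArg₂ (· - ·) e1 (congrArg₂ (· + ·) (be_sym hG H x) (be_sym hG H y))
  · have hL : ∀ y ∈ H.1, g * y * g⁻¹ ∈ L.1 := by
      intro y hy
      rw [← hφ ⟨y, hy⟩]
      exact (φ ⟨y, hy⟩).2
    refine AddSubgroup.subset_closure (Or.inr ⟨g, H, L, hL,
      Pool.Agent.Y69.FJ.K1.map (E' (hSub hG H.1)) x, ?_⟩)
    rw [map_sub]
    refine congrArg₂ (· - ·) ((be_sym hG L _).trans (congrArg (sym k1 (show FinSub G from L)) ?_))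
      (be_sym hG H x)
    have h1 := k1_map_map (MonoidAlgebra.mapDomainRingHom k φ) (E' (hSub hG L.1)) x
    have h2 := k1_map_map (E' (hSub hG H.1)) (conjHom g hL) x
    refine h1.trans (Eq.trans ?_ h2.symm)
    congr 1
    congr 1
    apply mon_ext
    intro a b
    rw [RingHom.comp_apply, RingHom.comp_apply, E'_single, MonoidAlgebra.mapDomainRingHom_apply,
      MonoidAlgebra.mapDomain_single, E'_single]
    have h4 : conjHom g hL (SkewMonoidAlgebra.single a b) =
        SkewMonoidAlgebra.single (⟨g * a * g⁻¹, hL a a.2⟩ : L.1) (g • b) := by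
      show SkewMonoidAlgebra.liftNC _ _ _ = _
      rw [SkewMonoidAlgebra.liftNC_single]
      show SkewMonoidAlgebra.single 1 (g • b) * SkewMonoidAlgebra.single _ 1 = _
      rw [SkewMonoidAlgebra.single_mul_single, one_smul, mul_one, one_mul]
      rfl
    rw [h4, hG]
    congr 1
    exact Subtype.ext (hφ a)

end main

theorem s_TR1 : S_TR1 := by
  intro k G _ _ _ hG z n hn hz
  have h1 : n • Pool.Agent.Y69.FJK.assembly k G
      (QuotientAddGroup.mk (al hG z) : Pool.Agent.Y69.FJK.ColimK1 k G) = 0 := by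
    show n • Pool.Agent.Y69.FJK.assemblyPre k G (al hG z) = 0
    rw [asm_al]
    have h2 : n • (Pool.Agent.Y69.FJ.K1.map (E hG) (asmPre k1 k G z)) =
        Pool.Agent.Y69.FJ.K1.map (E hG) (n • asmPre k1 k G z) := (map_nsmul _ _ _).symm
    refine h2.trans ?_
    rw [hz]
    exact map_zero _
  have h3 : ∃ l : ℕ, 0 < l ∧
      l • (QuotientAddGroup.mk (al hG z) : Pool.Agent.Y69.FJK.ColimK1 k G) = 0 := by
    obtain ⟨p, hp⟩ := CharP.exists k
    rcases CharP.char_is_prime_or_zero k p with hpp | hp0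
    · exact Pool.Agent.Results.MP_490288_al.ColimPositiveCharacteristic.result k G p hpp _ n hn h1
    · subst hp0
      have : CharZero k := CharP.charP_to_charZero k
      exact Pool.Agent.Results.MP_6374fb_al.ColimFieldInjective.result k G _ n hn h1
  obtain ⟨l, hl, h4⟩ := h3
  refine ⟨l, hl, ?_⟩
  have h5 : l • al hG z ∈ AddSubgroup.closure (Pool.Agent.Y69.FJK.ColimRel k G) :=
    (QuotientAddGroup.eq_zero_iff _).1 h4
  have h6 := be_rel hG h5
  rw [AddSubgroup.mem_comap, map_nsmul, be_al] at h6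
  exact (QuotientAddGroup.eq_zero_iff _).2 h6

end

end Pool.Agent.L7h76.TW
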